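import Pool.Agent.helper32.EB.Defs2
import Pool.Agent.helper31.BT.CA
import Pool.Agent.helper71.BT.CB
import Pool.Agent.helper71.BT.CC
import Pool.Agent.helper92.BT.CE
import Pool.Agent.helper15.BT.CD
import Pool.Agent.helper15.BT.CF

/-! # Project EB, module CG: second moment inequality -/

open MeasureTheory ProbabilityTheory Filter Topology
open scoped ENNReal NNReal

namespace Pool.Agent.helper32.EB

/-! ### Closure of the classes under sums and multiples -/

theorem CG_super_zero (G : Geo) (ν : Measure ℂ) :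
    SuperC G ν (fun _ _ _ => 0) (fun _ _ => 0) where
  meas := fun _ _ => measurable_const
  step := fun _ _ _ _ _ => by simp
  exit := fun _ _ _ _ _ => le_refl _
  ring := fun _ _ _ _ _ _ => le_refl _

theorem CG_super_add {G : Geo} {ν : Measure ℂ} {Pa Pa' : ℕ → ℂ → HS G.J → ℝ≥0∞}
    {Pi Pi' : ℕ → HS G.J → ℝ≥0∞} (h : SuperC G ν Pa Pi) (h' : SuperC G ν Pa' Pi') :
    SuperC G ν (fun m z s => Pa m z s + Pa' m z s) (fun m s => Pi m s + Pi' m s) where
  meas := fun m s => (h.meas m s).add (h'.meas m s)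
  step := fun m z s hz hv => by
    have hm : Measurable (fun y => Pa m (z + y) (updH G (z + y) s)) :=
      (h.meas m s).comp (measurable_const_add z)
    show ∫⁻ y, (Pa m (z + y) (updH G (z + y) s) + Pa' m (z + y) (updH G (z + y) s)) ∂ν ≤ _
    rw [lintegral_add_left hm]
    exact add_le_add (h.step m z s hz hv) (h'.step m z s hz hv)
  exit := fun m z s h1 h2 => add_le_add (h.exit m z s h1 h2) (h'.exit m z s h1 h2)
  ring := fun m z s h1 h2 h3 => add_le_add (h.ring m z s h1 h2 h3) (h'.ring m z s h1 h2 h3)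

theorem CG_super_smul {G : Geo} {ν : Measure ℂ} {Pa : ℕ → ℂ → HS G.J → ℝ≥0∞}
    {Pi : ℕ → HS G.J → ℝ≥0∞} (h : SuperC G ν Pa Pi) (c : ℝ≥0∞) :
    SuperC G ν (fun m z s => c * Pa m z s) (fun m s => c * Pi m s) where
  meas := fun m s => (h.meas m s).const_mul c
  step := fun m z s hz hv => by
    have hm : Measurable (fun y => Pa m (z + y) (updH G (z + y) s)) :=
      (h.meas m s).comp (measurable_const_add z)
    show ∫⁻ y, c * Pa m (z + y) (updH G (z + y) s) ∂ν ≤ _
    rw [lintegral_const_mul c hm]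
    exact mul_le_mul_right (h.step m z s hz hv) c
  exit := fun m z s h1 h2 => mul_le_mul_right (h.exit m z s h1 h2) c
  ring := fun m z s h1 h2 h3 => mul_le_mul_right (h.ring m z s h1 h2 h3) c

theorem CG_super_sum {G : Geo} {ν : Measure ℂ} {ι : Type*} (t : Finset ι)
    (Pa : ι → ℕ → ℂ → HS G.J → ℝ≥0∞) (Pi : ι → ℕ → HS G.J → ℝ≥0∞)
    (h : ∀ i ∈ t, SuperC G ν (Pa i) (Pi i)) :
    SuperC G ν (fun m z s => ∑ i ∈ t, Pa i m z s) (fun m s => ∑ i ∈ t, Pi i m s) := by
  classical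
  induction t using Finset.induction_on with
  | empty => simpa using CG_super_zero G ν
  | insert a t ha ih =>
    have h1 := ih (fun i hi => h i (Finset.mem_insert_of_mem hi))
    have h2 := h a (Finset.mem_insert_self a t)
    have := CG_super_add h2 h1
    simpa [Finset.sum_insert ha] using this

theorem CG_sub_zero (G : Geo) (ν : Measure ℂ) :
    SubC G ν (fun _ _ _ => 0) (fun _ _ => 0) 0 where
  meas := fun _ _ => measurable_const
  step := fun _ _ _ _ _ => by simp
  exit := fun _ _ _ _ _ => le_refl _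
  ring := fun _ _ _ _ _ _ => le_refl _
  bdd := fun _ _ _ _ _ => le_refl _

theorem CG_sub_add {G : Geo} {ν : Measure ℂ} {Pa Pa' : ℕ → ℂ → HS G.J → ℝ≥0∞}
    {Pi Pi' : ℕ → HS G.J → ℝ≥0∞} {C C' : ℝ≥0∞} (h : SubC G ν Pa Pi C)
    (h' : SubC G ν Pa' Pi' C') :
    SubC G ν (fun m z s => Pa m z s + Pa' m z s) (fun m s => Pi m s + Pi' m s) (C + C') where
  meas := fun m s => (h.meas m s).add (h'.meas m s)
  step := fun m z s hz hv => by
    have hm : Measurable (fun y => Pa m (z + y) (updH G (z + y) s)) :=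
      (h.meas m s).comp (measurable_const_add z)
    show _ ≤ ∫⁻ y, (Pa m (z + y) (updH G (z + y) s) + Pa' m (z + y) (updH G (z + y) s)) ∂ν
    rw [lintegral_add_left hm]
    exact add_le_add (h.step m z s hz hv) (h'.step m z s hz hv)
  exit := fun m z s h1 h2 => add_le_add (h.exit m z s h1 h2) (h'.exit m z s h1 h2)
  ring := fun m z s h1 h2 h3 => add_le_add (h.ring m z s h1 h2 h3) (h'.ring m z s h1 h2 h3)
  bdd := fun m z s h1 h2 => add_le_add (h.bdd m z s h1 h2) (h'.bdd m z s h1 h2)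

theorem CG_sub_smul {G : Geo} {ν : Measure ℂ} {Pa : ℕ → ℂ → HS G.J → ℝ≥0∞}
    {Pi : ℕ → HS G.J → ℝ≥0∞} {C : ℝ≥0∞} (h : SubC G ν Pa Pi C) (c : ℝ≥0∞) :
    SubC G ν (fun m z s => c * Pa m z s) (fun m s => c * Pi m s) (c * C) where
  meas := fun m s => (h.meas m s).const_mul c
  step := fun m z s hz hv => by
    have hm : Measurable (fun y => Pa m (z + y) (updH G (z + y) s)) :=
      (h.meas m s).comp (measurable_const_add z)
    show _ ≤ ∫⁻ y, c * Pa m (z + y) (updH G (z + y) s) ∂ν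
    rw [lintegral_const_mul c hm]
    exact mul_le_mul_right (h.step m z s hz hv) c
  exit := fun m z s h1 h2 => mul_le_mul_right (h.exit m z s h1 h2) c
  ring := fun m z s h1 h2 h3 => mul_le_mul_right (h.ring m z s h1 h2 h3) c
  bdd := fun m z s h1 h2 => mul_le_mul_right (h.bdd m z s h1 h2) c

theorem CG_sub_sum {G : Geo} {ν : Measure ℂ} {ι : Type*} (t : Finset ι)
    (Pa : ι → ℕ → ℂ → HS G.J → ℝ≥0∞) (Pi : ι → ℕ → HS G.J → ℝ≥0∞) (C : ι → ℝ≥0∞)
    (h : ∀ i ∈ t, SubC G ν (Pa i) (Pi i) (C i)) :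
    SubC G ν (fun m z s => ∑ i ∈ t, Pa i m z s) (fun m s => ∑ i ∈ t, Pi i m s)
      (∑ i ∈ t, C i) := by
  classical
  induction t using Finset.induction_on with
  | empty => simpa using CG_sub_zero G ν
  | insert a t ha ih =>
    have h1 := ih (fun i hi => h i (Finset.mem_insert_of_mem hi))
    have h2 := h a (Finset.mem_insert_self a t)
    have := CG_sub_add h2 h1
    simpa [Finset.sum_insert ha] using this

/-! ### Geometry: signs of the constants -/

theorem CG_R_ge (G : Geo) (hG : G.OK) (d : ℕ) (hd : d ≤ G.K) : G.ρ ≤ G.R (G.K - d) := by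
  have hρ : 0 < G.ρ := by have := hG.hρ; have := hG.hpos; linarith
  induction d with
  | zero => simp [hG.RK]
  | succ d ih =>
    have h1 := ih (by omega)
    have h2 := hG.dec (G.K - (d + 1)) (by omega)
    have h3 : G.K - (d + 1) + 1 = G.K - d := by omega
    rw [h3] at h2
    linarith

theorem CG_R_ge' (G : Geo) (hG : G.OK) (k : ℕ) (hk : k ≤ G.K) : G.ρ ≤ G.R k := by
  have := CG_R_ge G hG (G.K - k) (by omega)
  have h2 : G.K - (G.K - k) = k := by omega
  rwa [h2] at this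

theorem CG_R_le (G : Geo) (hG : G.OK) (k : ℕ) (hk : k ≤ G.K) : G.R k ≤ 2 * G.r := by
  induction k with
  | zero => exact le_of_eq hG.R0
  | succ k ih =>
    have h1 := ih (by omega)
    have h2 := hG.dec k (by omega)
    have h3 := CG_R_ge' G hG (k + 1) hk
    have hρ : 0 < G.ρ := by have := hG.hρ; have := hG.hpos; linarith
    linarith

theorem CG_r_pos (G : Geo) (hG : G.OK) : 0 < G.r := by
  have h1 := CG_R_ge' G hG 0 (Nat.zero_le _)
  have h2 := hG.R0
  have hρ : 0 < G.ρ := by have := hG.hρ; have := hG.hpos; linarith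
  linarith

theorem CG_tt_pos (G : Geo) (hG : G.OK) (k : ℕ) (hk : k + 1 ≤ G.K) : 0 < tt G k := by
  have h1 := CG_R_ge' G hG (k + 1) hk
  have h2 := hG.dec k (by omega)
  have h3 := hG.hρ
  have h4 := hG.hpos
  unfold tt
  apply Real.log_pos
  rw [lt_div_iff₀ (by linarith)]
  linarith

theorem CG_tt_lt (G : Geo) (hG : G.OK) (k : ℕ) (hk1 : 1 ≤ k) (hk : k ≤ G.K) :
    tt G k < tt G (k - 1) := by
  have h1 := CG_R_ge' G hG k hk
  have h2 := hG.dec (k - 1) (by omega)
  have h3 := hG.hρ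
  have h4 := hG.hpos
  have h5 : k - 1 + 1 = k := by omega
  rw [h5] at h2
  unfold tt
  apply Real.log_lt_log
  · apply div_pos <;> linarith
  · apply div_lt_div_of_pos_right <;> linarith

theorem CG_sr_nonneg (G : Geo) (hG : G.OK) : 0 ≤ sr G := by
  have h1 := CG_r_pos G hG
  have h2 := hG.big
  unfold sr
  apply Real.log_nonneg
  rw [le_div_iff₀ (by linarith)]
  linarith

theorem CG_sr_lt_s1 (G : Geo) (hG : G.OK) (k : ℕ) (hk : k ≤ G.K) : sr G < s1 G k := by
  have h1 := CG_r_pos G hG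
  have h2 := hG.big
  have h3 := CG_R_le G hG k hk
  have h4 := CG_R_ge' G hG k hk
  have h5 := hG.hρ
  have h6 := hG.hpos
  unfold sr s1
  apply Real.log_lt_log
  · apply div_pos <;> linarith
  · apply div_lt_div_of_pos_left <;> linarith

theorem CG_s0_lt_s1 (G : Geo) (hG : G.OK) (k : ℕ) (hk1 : 1 ≤ k) (hk : k ≤ G.K) :
    s0 G k < s1 G k := by
  have h1 := CG_r_pos G hG
  have h2 := hG.big
  have h4 := CG_R_ge' G hG k hk
  have h7 := hG.dec (k - 1) (by omega)
  have h8 : k - 1 + 1 = k := by omega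
  rw [h8] at h7
  have h5 := hG.hρ
  have h6 := hG.hpos
  unfold s0 s1
  apply Real.log_lt_log
  · apply div_pos <;> linarith
  · apply div_lt_div_of_pos_left <;> linarith

theorem CG_aux {sr s0 s1 a b : ℝ} (hsr : 0 ≤ sr) (h1 : sr < s1) (h0 : s0 < s1) (hb : 0 ≤ b)
    (hab : b < a) : 0 ≤ 1 - (a - b) / (s1 * a - b * s0) * sr := by
  have hD : 0 < s1 * a - b * s0 := by
    have h2 : b * s0 ≤ b * s1 := mul_le_mul_of_nonneg_left h0.le hb
    have h3 : b * s1 < a * s1 := mul_lt_mul_of_pos_right hab (lt_of_le_of_lt hsr h1)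
    nlinarith
  have key : (a - b) * sr ≤ s1 * a - b * s0 := by
    have h4 : 0 ≤ (a - b) * (s1 - sr) := mul_nonneg (by linarith) (by linarith)
    have h5 : 0 ≤ b * (s1 - s0) := mul_nonneg hb (by linarith)
    nlinarith
  have : (a - b) / (s1 * a - b * s0) * sr ≤ 1 := by
    rw [div_mul_eq_mul_div, div_le_one hD]
    exact key
  linarith

theorem CG_c1_nonneg (G : Geo) (hG : G.OK) (k : ℕ) (hk1 : 1 ≤ k) (hk : k + 1 ≤ G.K) (u : ℝ)
    (hu : 0 < u) (hu1 : u * tt G k < tt G (k - 1)) : 0 ≤ 1 - c1 G k u * sr G := by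
  have := CG_aux (a := tt G (k - 1)) (b := u * tt G k) (CG_sr_nonneg G hG)
    (CG_sr_lt_s1 G hG k (by omega)) (CG_s0_lt_s1 G hG k hk1 (by omega))
    (mul_nonneg hu.le (CG_tt_pos G hG k hk).le) hu1
  simpa [c1] using this

theorem CG_c2_nonneg (G : Geo) (hG : G.OK) (k : ℕ) (hk1 : 1 ≤ k) (hk : k + 1 ≤ G.K) (u : ℝ)
    (hu : 0 < u) (hu1 : u < 1) : 0 ≤ 1 - c2 G k u * sr G := by
  have := CG_aux (a := 1) (b := u) (CG_sr_nonneg G hG)
    (CG_sr_lt_s1 G hG k (by omega)) (CG_s0_lt_s1 G hG k hk1 (by omega)) hu.le hu1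
  simpa [c2] using this

theorem CG_cmn_nonneg (G : Geo) (hG : G.OK) : 0 ≤ cmn G := by
  have h1 := CG_r_pos G hG
  have h2 := hG.big
  have h3 := CG_R_le G hG G.K le_rfl
  have h5 := hG.hρ
  have h6 := hG.hpos
  rw [hG.RK] at h3
  have hlt : sr G ≤ Real.log ((G.R' - G.r) / (G.ρ - G.h)) := by
    unfold sr
    apply Real.log_le_log
    · apply div_pos <;> linarith
    · apply div_le_div_of_nonneg_left <;> linarith
  have hpos : 0 < Real.log ((G.R' - G.r) / (G.ρ - G.h)) := by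
    apply Real.log_pos
    rw [lt_div_iff₀ (by linarith)]
    linarith
  have : sr G / Real.log ((G.R' - G.r) / (G.ρ - G.h)) ≤ 1 := by
    rw [div_le_one hpos]
    exact hlt
  unfold cmn
  unfold sr at this
  linarith

theorem CG_mu_ge (G : Geo) (hG : G.OK) (l : ℕ) (hl : 1 ≤ l) (hlK : l + 1 ≤ G.K) :
    1 ≤ mu G l := by
  unfold mu
  rw [one_le_div (CG_tt_pos G hG l hlK)]
  exact (CG_tt_lt G hG l hl (by omega)).le

/-! ### The windows -/

/-- `x j` is not hit and its numbers of crossings are in the windows -/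
def CG_good (G : Geo) (lo hi : ℕ → ℝ) (j : Fin G.J) (s : HS G.J) : Prop :=
  j ∈ s.U ∧ ∀ k, 1 ≤ k → k + 1 ≤ G.K → lo k ≤ s.cnt j k ∧ (s.cnt j k : ℝ) ≤ hi k

/-- the starting state -/
def CG_s0 (G : Geo) : HS G.J where
  U := Finset.univ
  cnt := fun _ _ => 0
  st := fun _ _ => false

theorem CG_pow_ge {a x : ℝ} {c : ℕ} (ha : 1 ≤ a) (hx : x ≤ c) : 1 ≤ a ^ (-x) * a ^ c := by
  have h0 : 0 < a := by linarith
  rw [← Real.rpow_natCast a c, ← Real.rpow_add h0]
  exact Real.one_le_rpow ha (by linarith)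

theorem CG_pow_ge' {a x : ℝ} {c : ℕ} (h0 : 0 < a) (ha : a ≤ 1) (hx : (c : ℝ) ≤ x) :
    1 ≤ a ^ (-x) * a ^ c := by
  rw [← Real.rpow_natCast a c, ← Real.rpow_add h0]
  exact Real.one_le_rpow_of_pos_of_le_one_of_nonpos h0 ha (by linarith)

theorem CG_pair (G : Geo) (hG : G.OK) {ν : Measure ℂ} (hν : RotStep ν G.h) (n : ℕ)
    (lo hi uP : ℕ → ℝ) (huP : ∀ k, 0 < uP k ∧ uP k < 1) (i j : Fin G.J) (B : ℝ)
    (hBB : B = cmn G ^ n ∨
      (∃ l, 2 ≤ l ∧ l + 1 ≤ G.K ∧ 2 * G.R (l - 1) < ‖G.x i - G.x j‖ ∧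
        B = mu G l ^ (-(2 * lo l))) ∨
      (∃ k, 1 ≤ k ∧ k + 4 ≤ G.K ∧ 2 * G.R (k + 2) < ‖G.x i - G.x j‖ ∧
        ‖G.x i - G.x j‖ ≤ 2 * G.R (k + 1) ∧
        B = uP k ^ (-hi k) * mu G (k + 3) ^ (-(2 * lo (k + 3))) *
          (1 - c2 G k (uP k) * sr G) ^ n)) :
    ∃ (Pa : ℕ → ℂ → HS G.J → ℝ≥0∞) (Pi : ℕ → HS G.J → ℝ≥0∞), SuperC G ν Pa Pi ∧
      (∀ s, CG_good G lo hi i s → CG_good G lo hi j s → 1 ≤ Pi 0 s) ∧
      Pi n (CG_s0 G) = ENNReal.ofReal B ∧ 0 ≤ B := by
  classical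
  rcases hBB with h | ⟨l, hl, hlK, hd, hB⟩ | ⟨k, hk, hkK, hd, hd', hB⟩
  · obtain ⟨Pa, hP⟩ := super_close G hG hν i
    refine ⟨Pa, _, hP, ?_, ?_, ?_⟩
    · intro s hi _
      simp [hi.1]
    · simp [CG_s0, h]
    · rw [h]
      exact pow_nonneg (CG_cmn_nonneg G hG) n
  · obtain ⟨Pa, hP⟩ := super_micro G hG hν i j l hl hlK hd
    have hmu := CG_mu_ge G hG l (by omega) hlK
    refine ⟨_, _, CG_super_smul hP (ENNReal.ofReal (mu G l ^ (-(2 * lo l)))), ?_, ?_, ?_⟩
    · intro s hi hj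
      simp only [hi.1, hj.1, and_self, if_true]
      rw [← ENNReal.ofReal_mul (by positivity), ENNReal.one_le_ofReal]
      apply CG_pow_ge hmu
      have h1 := (hi.2 l (by omega) hlK).1
      have h2 := (hj.2 l (by omega) hlK).1
      push_cast
      linarith
    · simp [CG_s0, hB]
    · rw [hB]
      positivity
  · obtain ⟨Pa, hP⟩ := super_pair G hG hν i j k hk hkK (uP k) (huP k).1 (huP k).2 hd hd'
    have hmu := CG_mu_ge G hG (k + 3) (by omega) (by omega)
    have hc2 := CG_c2_nonneg G hG k hk (by omega) (uP k) (huP k).1 (huP k).2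
    have hu0 := (huP k).1
    refine ⟨_, _, CG_super_smul hP (ENNReal.ofReal
      (uP k ^ (-hi k) * mu G (k + 3) ^ (-(2 * lo (k + 3))))), ?_, ?_, ?_⟩
    · intro s hi' hj'
      simp only [hi'.1, hj'.1, and_self, if_true]
      rw [← ENNReal.ofReal_mul (by positivity), ENNReal.one_le_ofReal]
      have h1 : 1 ≤ uP k ^ (-hi k) * uP k ^ (s.cnt i k) :=
        CG_pow_ge' hu0 (huP k).2.le (hi'.2 k hk (by omega)).2
      have h2 : 1 ≤ mu G (k + 3) ^ (-(2 * lo (k + 3))) *
          mu G (k + 3) ^ (s.cnt i (k + 3) + s.cnt j (k + 3)) := by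
        apply CG_pow_ge hmu
        have h1 := (hi'.2 (k + 3) (by omega) (by omega)).1
        have h2 := (hj'.2 (k + 3) (by omega) (by omega)).1
        push_cast
        linarith
      have h3 := one_le_mul_of_one_le_of_one_le h1 h2
      calc (1 : ℝ) ≤ _ := h3
        _ = _ := by ring
    · simp only [CG_s0, Finset.mem_univ, and_self, if_true, pow_zero, add_zero, one_mul]
      rw [← ENNReal.ofReal_mul (by positivity), hB]
    · rw [hB]
      positivity

theorem second_moment (G : Geo) (hG : G.OK) {ν : Measure ℂ} (hν : RotStep ν G.h) (n : ℕ)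
    (lo hi uH uL uP : ℕ → ℝ)
    (huH : ∀ k, 1 ≤ k → k + 1 ≤ G.K → 1 ≤ uH k ∧ uH k * tt G k < tt G (k - 1))
    (huL : ∀ k, 1 ≤ k → k + 1 ≤ G.K → 0 < uL k ∧ uL k ≤ 1)
    (huP : ∀ k, 0 < uP k ∧ uP k < 1) (err : ℝ)
    (herr : ∑ k ∈ Finset.Ico 1 G.K, (uH k ^ (-hi k) * (1 - c1 G k (uH k) * sr G) ^ n +
      uL k ^ (-lo k) * (1 - c1 G k (uL k) * sr G) ^ n) ≤ err)
    (BB : Fin G.J → Fin G.J → ℝ)
    (hBB : ∀ i j, BB i j = cmn G ^ n ∨
      (∃ l, 2 ≤ l ∧ l + 1 ≤ G.K ∧ 2 * G.R (l - 1) < ‖G.x i - G.x j‖ ∧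
        BB i j = mu G l ^ (-(2 * lo l))) ∨
      (∃ k, 1 ≤ k ∧ k + 4 ≤ G.K ∧ 2 * G.R (k + 2) < ‖G.x i - G.x j‖ ∧
        ‖G.x i - G.x j‖ ≤ 2 * G.R (k + 1) ∧
        BB i j = uP k ^ (-hi k) * mu G (k + 3) ^ (-(2 * lo (k + 3))) *
          (1 - c2 G k (uP k) * sr G) ^ n))
    (α : ℝ) (hα : 0 ≤ α) :
    Vv G ν n Finset.univ + ENNReal.ofReal (2 * α * G.J * cmx G ^ n) ≤
      1 + ENNReal.ofReal (2 * α * G.J * err + α ^ 2 * ∑ i, ∑ j, BB i j) := by
  classical
  -- choose the pair supersolutions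
  choose Pa Pi hP hP1 hP2 hP3 using
    fun i j => CG_pair G hG hν n lo hi uP huP i j (BB i j) (hBB i j)
  -- the error supersolutions
  have hex : ∀ (k : ℕ) (j : Fin G.J), ∃ (E : ℕ → ℂ → HS G.J → ℝ≥0∞)
      (Ei : ℕ → HS G.J → ℝ≥0∞), k ∈ Finset.Ico 1 G.K → (SuperC G ν E Ei ∧
        (∀ s, j ∈ s.U → ¬ (lo k ≤ s.cnt j k ∧ (s.cnt j k : ℝ) ≤ hi k) → 1 ≤ Ei 0 s) ∧
        Ei n (CG_s0 G) = ENNReal.ofReal (uH k ^ (-hi k) * (1 - c1 G k (uH k) * sr G) ^ n +
          uL k ^ (-lo k) * (1 - c1 G k (uL k) * sr G) ^ n)) := by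
    intro k j
    by_cases hk : k ∈ Finset.Ico 1 G.K
    swap
    · exact ⟨fun _ _ _ => 0, fun _ _ => 0, fun h => absurd h hk⟩
    rw [Finset.mem_Ico] at hk
    have hk1 : 1 ≤ k := hk.1
    have hk2 : k + 1 ≤ G.K := hk.2
    have hH := huH k hk1 hk2
    have hL := huL k hk1 hk2
    have hL' : uL k * tt G k < tt G (k - 1) := by
      have h1 := CG_tt_pos G hG k hk2
      have h2 := CG_tt_lt G hG k hk1 (by omega)
      nlinarith [hL.2]
    have hH0 : 0 < uH k := by linarith [hH.1]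
    have hL0 := hL.1
    obtain ⟨P1, hP1⟩ := super_err G hG hν j k hk1 hk2 (uH k) hH0 hH.2
    obtain ⟨P2, hP2⟩ := super_err G hG hν j k hk1 hk2 (uL k) hL0 hL'
    have hcH := CG_c1_nonneg G hG k hk1 hk2 (uH k) hH0 hH.2
    have hcL := CG_c1_nonneg G hG k hk1 hk2 (uL k) hL0 hL'
    refine ⟨_, _, fun _ => ⟨CG_super_add
      (CG_super_smul hP1 (ENNReal.ofReal (uH k ^ (-hi k))))
      (CG_super_smul hP2 (ENNReal.ofReal (uL k ^ (-lo k)))), ?_, ?_⟩⟩
    · intro s hs hn
      simp only [hs, if_true, pow_zero, mul_one]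
      rw [not_and_or, not_le, not_le] at hn
      rcases hn with hn | hn
      · refine le_trans ?_ (self_le_add_left _ _)
        rw [← ENNReal.ofReal_mul (by positivity), ENNReal.one_le_ofReal]
        exact CG_pow_ge' hL.1 hL.2 hn.le
      · refine le_trans ?_ (self_le_add_right _ _)
        rw [← ENNReal.ofReal_mul (by positivity), ENNReal.one_le_ofReal]
        exact CG_pow_ge hH.1 hn.le
    · simp only [CG_s0, Finset.mem_univ, if_true, pow_zero, one_mul]
      rw [← ENNReal.ofReal_mul (by positivity), ← ENNReal.ofReal_mul (by positivity),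
        ← ENNReal.ofReal_add (by positivity) (by positivity)]
  choose E Ei hE using hex
  choose Qa hQa using fun j => sub_main G hG hν j
  set a : ℝ≥0∞ := ENNReal.ofReal (2 * α) with ha
  set b : ℝ≥0∞ := ENNReal.ofReal (α ^ 2) with hb
  have hSup := CG_super_add
    (CG_super_smul (CG_super_sum Finset.univ _ _ (fun j _ =>
      CG_super_sum (Finset.Ico 1 G.K) (fun k => E k j) (fun k => Ei k j)
        (fun k hk => (hE k j hk).1))) a)
    (CG_super_smul (CG_super_sum Finset.univ _ _ (fun i _ =>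
      CG_super_sum Finset.univ (fun j => Pa i j) (fun j => Pi i j)
        (fun j _ => hP i j))) b)
  have hSub := CG_sub_smul (CG_sub_sum Finset.univ _ _ _ (fun j _ => hQa j)) a
  have hC : a * ∑ i : Fin G.J, (1 : ℝ≥0∞) ≠ ⊤ := by
    apply ENNReal.mul_ne_top ENNReal.ofReal_ne_top
    simp
  have hmain := compare G hG hν hC hSup hSub ?_ n (CG_s0 G) (fun _ _ _ _ => rfl)
  · have hE2 : ∀ j, ∑ k ∈ Finset.Ico 1 G.K, Ei k j n (CG_s0 G) ≤ ENNReal.ofReal err := by
      intro j
      rw [Finset.sum_congr rfl (fun k hk => (hE k j hk).2.2)]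
      rw [← ENNReal.ofReal_sum_of_nonneg]
      · exact ENNReal.ofReal_le_ofReal herr
      · intro k hk
        rw [Finset.mem_Ico] at hk
        have hk1 : 1 ≤ k := hk.1
        have hk2 : k + 1 ≤ G.K := hk.2
        have hH := huH k hk1 hk2
        have hL := huL k hk1 hk2
        have hL' : uL k * tt G k < tt G (k - 1) := by
          have h1 := CG_tt_pos G hG k hk2
          have h2 := CG_tt_lt G hG k hk1 (by omega)
          nlinarith [hL.2]
        have hH0 : 0 < uH k := by linarith [hH.1]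
        have hL0 := hL.1
        have hcH := CG_c1_nonneg G hG k hk1 hk2 (uH k) hH0 hH.2
        have hcL := CG_c1_nonneg G hG k hk1 hk2 (uL k) hL0 hL'
        positivity
    have herr1 : 0 ≤ err := by
      refine le_trans (Finset.sum_nonneg ?_) herr
      intro k hk
      rw [Finset.mem_Ico] at hk
      have hk1 : 1 ≤ k := hk.1
      have hk2 : k + 1 ≤ G.K := hk.2
      have hH := huH k hk1 hk2
      have hL := huL k hk1 hk2
      have hL' : uL k * tt G k < tt G (k - 1) := by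
        have h1 := CG_tt_pos G hG k hk2
        have h2 := CG_tt_lt G hG k hk1 (by omega)
        nlinarith [hL.2]
      have hH0 : 0 < uH k := by linarith [hH.1]
      have hL0 := hL.1
      have hcH := CG_c1_nonneg G hG k hk1 hk2 (uH k) hH0 hH.2
      have hcL := CG_c1_nonneg G hG k hk1 hk2 (uL k) hL0 hL'
      positivity
    have hBs : ∑ i, ∑ j, Pi i j n (CG_s0 G) = ENNReal.ofReal (∑ i, ∑ j, BB i j) := by
      rw [ENNReal.ofReal_sum_of_nonneg
        (fun i _ => Finset.sum_nonneg (fun j _ => hP3 i j))]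
      apply Finset.sum_congr rfl
      intro i _
      rw [ENNReal.ofReal_sum_of_nonneg (fun j _ => hP3 i j)]
      exact Finset.sum_congr rfl (fun j _ => hP2 i j)
    have hU : (CG_s0 G).U = Finset.univ := rfl
    have hQs : a * ∑ j : Fin G.J, (if j ∈ (CG_s0 G).U then ENNReal.ofReal (cmx G ^ n) else 0) =
        ENNReal.ofReal (2 * α * G.J * cmx G ^ n) := by
      simp only [hU, Finset.mem_univ, if_true, Finset.sum_const, Finset.card_univ,
        Fintype.card_fin, nsmul_eq_mul]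
      rw [ENNReal.ofReal_mul (by positivity), ENNReal.ofReal_mul (by positivity),
        ENNReal.ofReal_natCast, ha, mul_assoc]
    have h3 : Vv G ν n Finset.univ + ENNReal.ofReal (2 * α * G.J * cmx G ^ n) ≤
        1 + (a * ∑ j, ∑ k ∈ Finset.Ico 1 G.K, Ei k j n (CG_s0 G) +
          b * ∑ i, ∑ j, Pi i j n (CG_s0 G)) := by
      rw [← hQs]
      exact hmain
    refine le_trans h3 ?_
    rw [ENNReal.ofReal_add (by positivity)
      (mul_nonneg (by positivity) (Finset.sum_nonneg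
        (fun i _ => Finset.sum_nonneg (fun j _ => hP3 i j))))]
    refine add_le_add le_rfl (add_le_add ?_ ?_)
    · calc a * ∑ j, ∑ k ∈ Finset.Ico 1 G.K, Ei k j n (CG_s0 G)
          ≤ a * ∑ j : Fin G.J, ENNReal.ofReal err :=
            mul_le_mul_right (Finset.sum_le_sum (fun j _ => hE2 j)) a
        _ = ENNReal.ofReal (2 * α * G.J * err) := by
            simp only [Finset.sum_const, Finset.card_univ, Fintype.card_fin, nsmul_eq_mul]
            rw [ENNReal.ofReal_mul (by positivity), ENNReal.ofReal_mul (by positivity),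
              ENNReal.ofReal_natCast, ha, mul_assoc]
    · rw [hBs, hb, ← ENNReal.ofReal_mul (by positivity)]
  · intro s
    set gd : Fin G.J → ℕ := fun j => if CG_good G lo hi j s then 1 else 0 with hgd
    set W : ℕ := ∑ j, gd j with hW
    -- the number of balls not hit
    have hA : ∑ j : Fin G.J, (if j ∈ s.U then ENNReal.ofReal (cmx G ^ 0) else 0) ≤
        (W : ℝ≥0∞) + ∑ j, ∑ k ∈ Finset.Ico 1 G.K, Ei k j 0 s := by
      rw [hW]
      push_cast
      rw [← Finset.sum_add_distrib]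
      apply Finset.sum_le_sum
      intro j _
      by_cases hj : j ∈ s.U
      swap
      · simp [hj]
      simp only [hj, if_true, pow_zero, ENNReal.ofReal_one]
      by_cases hg : CG_good G lo hi j s
      · refine le_trans ?_ (self_le_add_right _ _)
        simp [hgd, hg]
      · have : ∃ k, 1 ≤ k ∧ k + 1 ≤ G.K ∧
            ¬ (lo k ≤ s.cnt j k ∧ (s.cnt j k : ℝ) ≤ hi k) := by
          by_contra hcon
          push Not at hcon
          exact hg ⟨hj, fun k h1 h2 => ⟨(hcon k h1 h2).1, (hcon k h1 h2).2⟩⟩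
        obtain ⟨k, hk1, hk2, hk3⟩ := this
        have hk : k ∈ Finset.Ico 1 G.K := Finset.mem_Ico.2 ⟨hk1, hk2⟩
        refine le_trans ((hE k j hk).2.1 s hj hk3) ?_
        refine le_trans ?_ (self_le_add_left _ _)
        exact Finset.single_le_sum (f := fun k => Ei k j 0 s) (fun _ _ => bot_le) hk
    have hB : ((W : ℝ≥0∞)) ^ 2 ≤ ∑ i, ∑ j, Pi i j 0 s := by
      rw [hW, sq]
      push_cast
      rw [Finset.sum_mul_sum]
      apply Finset.sum_le_sum
      intro i _
      apply Finset.sum_le_sum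
      intro j _
      by_cases hgi : CG_good G lo hi i s
      · by_cases hgj : CG_good G lo hi j s
        · simpa [hgd, hgi, hgj] using hP1 i j s hgi hgj
        · simp [hgd, hgj]
      · simp [hgd, hgi]
    have hD : (if s.U = ∅ then (1 : ℝ≥0∞) else 0) + a * W ≤ 1 + b * (W : ℝ≥0∞) ^ 2 := by
      by_cases hs : s.U = ∅
      · have : W = 0 := by
          rw [hW]
          apply Finset.sum_eq_zero
          intro j _
          have : ¬ CG_good G lo hi j s := by
            intro h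
            have := h.1
            rw [hs] at this
            simp at this
          simp [hgd, this]
        simp [hs, this]
      · simp only [hs, if_false, zero_add]
        rw [ha, hb, ← ENNReal.ofReal_natCast, ← ENNReal.ofReal_pow (by positivity),
          ← ENNReal.ofReal_mul (by positivity), ← ENNReal.ofReal_mul (by positivity),
          ← ENNReal.ofReal_one, ← ENNReal.ofReal_add (by positivity) (by positivity)]
        apply ENNReal.ofReal_le_ofReal
        nlinarith [sq_nonneg (α * W - 1)]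
    calc (if s.U = ∅ then (1 : ℝ≥0∞) else 0) +
          a * ∑ j : Fin G.J, (if j ∈ s.U then ENNReal.ofReal (cmx G ^ 0) else 0)
        ≤ (if s.U = ∅ then (1 : ℝ≥0∞) else 0) +
          a * ((W : ℝ≥0∞) + ∑ j, ∑ k ∈ Finset.Ico 1 G.K, Ei k j 0 s) :=
          add_le_add le_rfl (mul_le_mul_right hA a)
      _ = ((if s.U = ∅ then (1 : ℝ≥0∞) else 0) + a * W) +
          a * ∑ j, ∑ k ∈ Finset.Ico 1 G.K, Ei k j 0 s := by rw [mul_add, add_assoc]
      _ ≤ (1 + b * (W : ℝ≥0∞) ^ 2) + a * ∑ j, ∑ k ∈ Finset.Ico 1 G.K, Ei k j 0 s :=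
          add_le_add hD le_rfl
      _ ≤ (1 + b * ∑ i, ∑ j, Pi i j 0 s) +
          a * ∑ j, ∑ k ∈ Finset.Ico 1 G.K, Ei k j 0 s :=
          add_le_add (add_le_add le_rfl (mul_le_mul_right hB b)) le_rfl
      _ = 1 + (a * ∑ j, ∑ k ∈ Finset.Ico 1 G.K, Ei k j 0 s +
          b * ∑ i, ∑ j, Pi i j 0 s) := by
          rw [add_assoc, add_comm (b * _)]

end Pool.Agent.helper32.EB
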